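import Pool.Agent.Y793.Dy.Stm2
import Pool.Agent.Y401.Dy.Fine

/-!
Project DY (MP_bed052_nt): DY-FINE2, refinement of gaps when one index is reserved.
-/

set_option autoImplicit false

namespace Pool.Agent.Y435.Dy

open Finset
open Pool.Agent.Helper352.Bed Pool.Agent.Y793.Dy

theorem bottom2 {α β : ℝ} (hα : 0 < α) (hβ : 0 < β) (L R m n : ℕ) (hm : m < 2 ^ R)
    (hn : n < 2 ^ R) :
    ∃ s : ℕ, SS (cc α β) (fun i => 2 * L + 1 ≤ i ∧ i < 2 * (L + R + 1) ∧ i ≠ 2 * (L + R) + 1) s ∧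
      (s : ℝ) ≤ 2 ^ (L + 1) * (n * α) + 2 ^ L * (m * β) ∧
      2 ^ (L + 1) * (n * α) + 2 ^ L * (m * β) - 2 * R ≤ s := by
  obtain ⟨T1, hT1, h1, h2⟩ := bits_floor hα (L + 1) R n hn
  obtain ⟨T2, hT2, h3, h4⟩ := bits_floor hβ L R m hm
  have s1 : SS (cc α β) (fun i => (2 * L + 1 ≤ i ∧ i < 2 * (L + R + 1) ∧ i ≠ 2 * (L + R) + 1) ∧
      i % 2 = 0) (∑ j ∈ T1, ⌊(2 : ℝ) ^ (L + 1 + j) * α⌋₊) := by
    refine ⟨T1.image (fun j => 2 * (L + 1 + j)), ?_, ?_⟩
    · intro i hi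
      rw [mem_image] at hi
      obtain ⟨j, hj, rfl⟩ := hi
      have := hT1 hj
      rw [mem_range] at this
      omega
    · rw [sum_image (by intro a _ b _ hab; simpa using hab)]
      apply sum_congr rfl
      intro j _
      rw [cc_even]
  have s2 : SS (cc α β) (fun i => (2 * L + 1 ≤ i ∧ i < 2 * (L + R + 1) ∧ i ≠ 2 * (L + R) + 1) ∧
      i % 2 = 1) (∑ j ∈ T2, ⌊(2 : ℝ) ^ (L + j) * β⌋₊) := by
    refine ⟨T2.image (fun j => 2 * (L + j) + 1), ?_, ?_⟩
    · intro i hi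
      rw [mem_image] at hi
      obtain ⟨j, hj, rfl⟩ := hi
      have := hT2 hj
      rw [mem_range] at this
      omega
    · rw [sum_image (by intro a _ b _ hab; simpa using hab)]
      apply sum_congr rfl
      intro j _
      rw [cc_odd]
  refine ⟨_, (SS.add (fun i hi => by omega) s1 s2).mono (fun i hi => by omega), ?_, ?_⟩
  · push_cast at *
    linarith
  · push_cast at *
    linarith

/-- DY-FINE2 -/
theorem t_FINE2 : S_FINE2 := by
  intro p q R L D lo θ w P hpq hodd hp hlt hq2 hθ hR hT hP hw hcov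
  set T : ℝ := θ * 2 ^ L with hTdef
  have hT0 : 0 < T := by linarith
  have hθ0 : 0 < θ := by linarith
  have hpR : (2 : ℝ) ≤ p := by exact_mod_cast hp
  have hqR : (p : ℝ) < q := by exact_mod_cast hlt
  have hpq0 : 0 ≤ (p : ℝ) * q := by positivity
  have hq0 : (0 : ℝ) < q := by linarith
  have hcop : q.Coprime (2 * p) := by
    apply Nat.Coprime.mul_right
    · exact (Nat.coprime_two_right).2 hodd
    · exact hpq.symm
  obtain ⟨B, hB⟩ : ∃ B : ℕ, B + 1 = 2 ^ R :=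
    ⟨2 ^ R - 1, by have := Nat.one_le_two_pow (n := R); omega⟩
  have hBp : 2 * p ≤ B := by
    rw [← hB] at hR
    nlinarith
  have hBR : (2 : ℝ) ^ R = B + 1 := by exact_mod_cast hB.symm
  have hR' : 2 * ((p : ℝ) + q + 2 * p * q) ≤ B + 1 := by
    rw [← hBR]
    exact_mod_cast hR
  have h2pq : q * (2 * p) + q * (2 * p) ≤ (q + 2 * p) * B := by nlinarith
  obtain ⟨N1, hN1⟩ : ∃ N1 : ℕ, N1 + q * (2 * p) = (q + 2 * p) * B :=
    ⟨(q + 2 * p) * B - q * (2 * p), by omega⟩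
  have hN1R : (N1 : ℝ) = (q + 2 * p) * B - q * (2 * p) := by
    have : (N1 : ℝ) + q * (2 * p) = (q + 2 * p) * B := by exact_mod_cast hN1
    linarith
  have hc1 : T * (q * (2 * p)) ≤ ⌈T * (q * (2 * p))⌉₊ := Nat.le_ceil _
  have hc2 : (⌈T * (q * (2 * p))⌉₊ : ℝ) < T * (q * (2 * p)) + 1 :=
    Nat.ceil_lt_add_one (by positivity)
  obtain ⟨lo', hlo'⟩ : ∃ lo', lo' = lo + ⌈T * (q * (2 * p))⌉₊ := ⟨_, rfl⟩
  have hlo'R : (lo' : ℝ) = lo + ⌈T * (q * (2 * p))⌉₊ := by rw [hlo']; push_cast; ring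
  -- the first step
  have hA : Cov (cc (p * θ) (q * θ))
      (fun i => P i ∨ (2 * L + 1 ≤ i ∧ i < 2 * (L + R + 1) ∧ i ≠ 2 * (L + R) + 1)) D lo'
      (T * (N1 - q * (2 * p) + 1) - 1) := by
    intro y hy1 hy2
    have hy1' : (lo' : ℝ) ≤ y := by exact_mod_cast hy1
    have hyl : T * (q * (2 * p)) ≤ (y : ℝ) - lo := by linarith
    obtain ⟨F, hF⟩ : ∃ F : ℕ, F = ⌊((y : ℝ) - lo) / T⌋₊ := ⟨_, rfl⟩
    have hyl0 : 0 ≤ ((y : ℝ) - lo) / T := div_nonneg (by nlinarith) hT0.le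
    have hF1 : (F : ℝ) * T ≤ (y : ℝ) - lo := by
      have := Nat.floor_le hyl0
      rw [← hF, le_div_iff₀ hT0] at this
      exact this
    have hF2 : (y : ℝ) - lo < (F + 1) * T := by
      have := Nat.lt_floor_add_one (((y : ℝ) - lo) / T)
      rw [← hF, div_lt_iff₀ hT0] at this
      exact this
    have hF3 : q * (2 * p) ≤ F := by
      rw [hF]
      apply Nat.le_floor
      rw [le_div_iff₀ hT0]
      push_cast
      linarith
    obtain ⟨N, hN⟩ : ∃ N : ℕ, N = min N1 F := ⟨_, rfl⟩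
    have hNF : N ≤ F := by rw [hN]; exact min_le_right _ _
    have hNN1 : N ≤ N1 := by rw [hN]; exact min_le_left _ _
    obtain ⟨m, n, hm, hn, hmn⟩ := Pool.Agent.Y401.Dy.rep (N := N) hcop (by omega) (by omega) hBp
      (by rw [hN]; exact le_min (by omega) hF3) (by omega)
    obtain ⟨s2, hs2, hs2a, hs2b⟩ := bottom2 (α := p * θ) (β := q * θ) (by positivity)
      (by positivity) L R m n (by omega) (by omega)
    have hTN : (2 : ℝ) ^ (L + 1) * (n * (p * θ)) + 2 ^ L * (m * (q * θ)) = T * N := by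
      have : (q : ℝ) * m + 2 * p * n = N := by exact_mod_cast hmn
      rw [← this, hTdef, pow_succ]
      ring
    rw [hTN] at hs2a hs2b
    have hNF' : (N : ℝ) ≤ F := by exact_mod_cast hNF
    have hTNy : T * N ≤ (y : ℝ) - lo := by nlinarith
    have hlos : lo + s2 ≤ y := by
      have : (lo : ℝ) + s2 ≤ y := by linarith
      exact_mod_cast this
    obtain ⟨y', hy'⟩ : ∃ y' : ℕ, y' + s2 = y := ⟨y - s2, by omega⟩
    have hy'R : (y' : ℝ) = y - s2 := by
      have : (y' : ℝ) + s2 = y := by exact_mod_cast hy'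
      linarith
    have hyw : (y' : ℝ) ≤ lo + w := by
      rw [hy'R]
      rcases le_total N1 F with hc | hc
      · have hNe : (N : ℝ) = N1 := by rw [hN, min_eq_left hc]
        rw [hNe] at hs2b
        linarith
      · have hNe : (N : ℝ) = F := by rw [hN, min_eq_right hc]
        rw [hNe] at hs2b
        linarith
    obtain ⟨s1, hs1, hs1a, hs1b⟩ := hcov y' (by omega) hyw
    refine ⟨s1 + s2, SS.add (fun i hi hi2 => ?_) hs1 hs2, by omega, by omega⟩
    have := hP i hi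
    omega
  -- the last index
  obtain ⟨g, hg⟩ : ∃ g, g = cc (p * θ) (q * θ) (2 * (L + R) + 1) := ⟨_, rfl⟩
  have hgf : g = ⌊(2 : ℝ) ^ (L + R) * (q * θ)⌋₊ := by rw [hg, cc_odd]
  have hgv : (2 : ℝ) ^ (L + R) * (q * θ) = q * T * (B + 1) := by
    rw [pow_add, hTdef, hBR]
    ring
  have hg1 : (g : ℝ) ≤ q * T * (B + 1) := by
    rw [hgf, ← hgv]
    exact Nat.floor_le (by positivity)
  have hg2 : q * T * (B + 1) - 1 < (g : ℝ) := by
    rw [hgf, ← hgv]
    have := Nat.lt_floor_add_one ((2 : ℝ) ^ (L + R) * (q * θ))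
    linarith
  have hB0 : (0 : ℝ) ≤ B := by positivity
  have hgw : (g : ℝ) ≤ T * (N1 - q * (2 * p) + 1) - 1 := by
    refine hg1.trans ?_
    rw [hN1R]
    have h0 : 4 * (B : ℝ) ≤ 2 * p * B := mul_le_mul_of_nonneg_right (by linarith) hB0
    have h1 : 1 ≤ (q + 2 * p) * B - q * (2 * p) - q * (2 * p) + 1 - q * ((B : ℝ) + 1) := by
      linarith
    have h2 : T * 1 ≤ T * ((q + 2 * p) * B - q * (2 * p) - q * (2 * p) + 1 - q * ((B : ℝ) + 1)) :=
      mul_le_mul_of_nonneg_left h1 hT0.le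
    linarith
  refine ⟨lo', ?_⟩
  intro y hy1 hy2
  by_cases hc : (y : ℝ) ≤ lo' + (T * (N1 - q * (2 * p) + 1) - 1)
  · obtain ⟨s, hs, hs1, hs2⟩ := hA y hy1 hc
    refine ⟨s, hs.mono ?_, hs1, hs2⟩
    intro i hi
    rcases hi with hi | hi
    · exact Or.inl hi
    · exact Or.inr ⟨hi.1, hi.2.1⟩
  · push Not at hc
    have hgy : lo' + g ≤ y := by
      have : (lo' : ℝ) + g ≤ y := by linarith
      exact_mod_cast this
    obtain ⟨y', hy'⟩ : ∃ y' : ℕ, y' + g = y := ⟨y - g, by omega⟩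
    have hy'R : (y' : ℝ) = y - g := by
      have : (y' : ℝ) + g = y := by exact_mod_cast hy'
      linarith
    have hyw : (y' : ℝ) ≤ lo' + (T * (N1 - q * (2 * p) + 1) - 1) := by
      rw [hy'R, hN1R]
      have h5 : θ * 2 ^ (L + R + 1) = T * (B + 1) * 2 := by
        rw [pow_succ, pow_add, hTdef, hBR]
        ring
      rw [h5] at hy2
      have h1 : (1 : ℝ) ≤ (B + 1) - (2 * p + q) - 4 * p * q + 1 := by linarith
      have h2 : T * 1 ≤ T * ((B + 1) - (2 * p + q) - 4 * p * q + 1) :=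
        mul_le_mul_of_nonneg_left h1 hT0.le
      linarith
    obtain ⟨s, hs, hs1, hs2⟩ := hA y' (by omega) hyw
    have hsg : SS (cc (p * θ) (q * θ)) (fun i => i = 2 * (L + R) + 1) g :=
      ⟨{2 * (L + R) + 1}, fun i hi => mem_singleton.1 hi, by rw [sum_singleton, hg]⟩
    refine ⟨s + g, (SS.add (fun i hi hi2 => ?_) hs hsg).mono (fun i hi => ?_), by omega, by omega⟩
    · rcases hi with hi | hi
      · have := hP i hi
        omega
      · exact hi.2.2 hi2
    · rcases hi with (hi | hi) | hi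
      · exact Or.inl hi
      · exact Or.inr ⟨hi.1, hi.2.1⟩
      · right
        omega

end Pool.Agent.Y435.Dy
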